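import Pool.Agent.H27.DelJ

namespace Pool.Agent.Results.MP_7f2dba_nt.Powers
open Finset Pool.Agent.H27.DelJ

/-- `S_m(n)` -/
def S (m : ℤ) (n : ℕ) : ℚ :=
  ∑ k ∈ range n, (-1) ^ k * ((n - 1).choose k : ℚ) * ((2 * k).choose k : ℚ) / (m : ℚ) ^ k

/-- congruence modulo `3 ^ e` in the ring of rationals with denominator prime to `3` -/
def Cong (e : ℕ) (x y : ℚ) : Prop := ∃ c : ℚ, ¬ 3 ∣ c.den ∧ x - y = 3 ^ e * c

theorem result :
    (∀ (m : ℤ) (a : ℕ), m ≡ 1 [ZMOD 3] → m ≠ 1 → padicValInt 3 (m - 1) < a →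
      Cong (padicValInt 3 (m - 1)) (S m (3 ^ a) / 3 ^ a) (-((m - 1) / 3))) ∧
    (∀ a : ℕ, 2 ≤ a → Cong (2 * a) (S 1 (3 ^ a)) (-3 ^ (2 * a - 1))) := by
  haveI : Fact (Nat.Prime 3) := ⟨Nat.prime_three⟩
  have hk : ∀ a, ∃ k, 3 ^ a = k + 1 := fun a => ⟨3 ^ a - 1, by
    have : 0 < 3 ^ a := by positivity
    omega⟩
  constructor
  · intro m a hm hm1 ha
    obtain ⟨u, rfl⟩ : ∃ u, m = 3 * u + 4 := ⟨(m - 4) / 3, by unfold Int.ModEq at hm; omega⟩
    have h1 : 1 ≤ padicValInt 3 (3 * u + 4 - 1) := by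
      rcases (padicValInt_dvd_iff (p := 3) 1 (3 * u + 4 - 1)).mp ⟨u + 1, by push_cast; ring⟩
        with h | h
      · omega
      · exact h
    obtain ⟨v, hv⟩ := padicValInt_dvd (p := 3) (3 * u + 4 - 1)
    generalize padicValInt 3 (3 * u + 4 - 1) = e at *
    obtain ⟨d, rfl⟩ := Nat.exists_eq_add_of_lt ha
    obtain ⟨e, rfl⟩ := Nat.exists_eq_add_of_le' h1
    obtain ⟨k, hk⟩ := hk (e + 1 + d + 1)
    obtain ⟨g, hg, hg'⟩ := tau_diff u k (e + 1 + d + 1) (by rw [hk])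
    obtain ⟨h, hh⟩ := tau_one_dvd k (e + 1 + d + 1) (by rw [hk])
    have hk1 : 1 ≤ k := by
      have : 3 ^ 1 ≤ 3 ^ (e + 1 + d + 1) := Nat.pow_le_pow_right (by norm_num) (by omega)
      omega
    have hb := beta_one k (e + d) (by rw [← hk]; congr 1; ring)
    rw [show e + d + 2 = e + 1 + d + 1 by ring] at hb
    obtain ⟨y, hy⟩ := dvd_add (hg' hk1) hb
    have hy' : g + 1 = 3 * y := by
      have hne : (3 : ℤ) ^ (e + 1 + d + 1) ≠ 0 := by positivity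
      apply mul_left_cancel₀ hne
      linear_combination hy
    obtain ⟨z, hz⟩ : (3 : ℤ) ∣ (3 * u + 4) ^ k - 1 := by
      have := sub_dvd_pow_sub_pow (3 * u + 4) 1 k
      rw [one_pow] at this
      exact Dvd.dvd.trans ⟨u + 1, by ring⟩ this
    have hm0 : ((3 * u + 4 : ℤ) : ℚ) ≠ 0 := by
      have : (3 * u + 4 : ℤ) ≠ 0 := by omega
      exact_mod_cast this
    refine ⟨((3 ^ d * h + v * (y + z) : ℤ) : ℚ) / (((3 * u + 4) ^ k : ℤ) : ℚ), fun h3 => ?_, ?_⟩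
    · have := Rat.den_dvd (3 ^ d * h + v * (y + z)) ((3 * u + 4) ^ k)
      rw [Rat.divInt_eq_div] at this
      have := (Int.natCast_dvd_natCast.mpr h3).trans this
      omega
    · rw [hk, S, Nat.add_sub_cancel, tau_div _ hm0]
      have e1 := congrArg ((↑) : ℤ → ℚ) hg
      have e2 := congrArg ((↑) : ℤ → ℚ) hh
      have e3 := congrArg ((↑) : ℤ → ℚ) hy'
      have e4 := congrArg ((↑) : ℤ → ℚ) hz
      have e5 := congrArg ((↑) : ℤ → ℚ) hv
      have e7 := pow_ne_zero k hm0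
      push_cast at e1 e2 e3 e4 e5 e7 ⊢
      set M : ℚ := (3 * u + 4) ^ k
      field_simp
      linear_combination 3 * e1 + e2 + 3 ^ (e + 1 + d + 1) * (3 * u + 3) * (e3 + e4)
        + 3 ^ (e + 1 + d + 1) * 3 * (y + z) * e5
  · intro a ha
    obtain ⟨b, rfl⟩ := Nat.exists_eq_add_of_le' ha
    obtain ⟨k, hk⟩ := hk (b + 2)
    obtain ⟨c, hc⟩ := tau_one_pow k b hk
    refine ⟨c, by simp, ?_⟩
    rw [hk, S, Nat.add_sub_cancel, tau_div _ (by simp)]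
    have := congrArg ((↑) : ℤ → ℚ) hc
    push_cast at this ⊢
    linear_combination this

end Pool.Agent.Results.MP_7f2dba_nt.Powers
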