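import Pool.Agent.H27.DelJ

namespace Pool.Agent.Results.MP_7f2dba_nt.Valuation
open Finset Pool.Agent.H27.DelJ Pool.Agent.H27.DelC

/-- `S_m(n)` -/
def S (m : ℤ) (n : ℕ) : ℚ :=
  ∑ k ∈ range n, (-1) ^ k * ((n - 1).choose k : ℚ) * ((2 * k).choose k : ℚ) / (m : ℚ) ^ k

instance : Fact (Nat.Prime 3) := ⟨Nat.prime_three⟩

/-- the 3-adic valuation of a rational number, with value `⊤` at `0` -/
noncomputable def nu (x : ℚ) : WithTop ℤ := Padic.addValuation (x : ℚ_[3])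

theorem result (m : ℤ) (hm : m ≡ 1 [ZMOD 3]) (n : ℕ) (hn : 0 < n) :
    min (nu n) (nu (m - 1)) ≤ nu (S m n / n) + 1 := by
  obtain ⟨k, rfl⟩ : ∃ k, n = k + 1 := ⟨n - 1, by omega⟩
  obtain ⟨u, rfl⟩ : ∃ u, m = 3 * u + 4 := ⟨(m - 4) / 3, by unfold Int.ModEq at hm; omega⟩
  obtain ⟨a, n', hn', hk⟩ := Nat.exists_eq_pow_mul_and_not_dvd hn.ne' 3 (by norm_num)
  obtain ⟨g, hg, -⟩ := tau_diff u k a ⟨n', hk⟩
  obtain ⟨h, hh⟩ := tau_one_dvd k a ⟨n', hk⟩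
  have hm0 : ((3 * u + 4 : ℤ) : ℚ) ≠ 0 := by
    have : (3 * u + 4 : ℤ) ≠ 0 := by omega
    exact_mod_cast this
  have hu : ∀ z : ℤ, IsCoprime z 3 → IsUnit (z : ℤ_[3]) := fun z hz =>
    PadicInt.isUnit_iff.mpr (PadicInt.norm_intCast_eq_one_iff.mpr (by exact_mod_cast hz))
  have hc1 : IsCoprime (n' : ℤ) 3 := by
    have : Nat.Coprime n' 3 := ((Nat.Prime.coprime_iff_not_dvd Nat.prime_three).mpr hn').symm
    exact_mod_cast Nat.isCoprime_iff_coprime.mpr this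
  have hc2 : IsCoprime ((3 * u + 4) ^ k) (3 : ℤ) := IsCoprime.pow_left ⟨1, -(u + 1), by ring⟩
  obtain ⟨w1, hw1⟩ := (hu _ hc1).exists_right_inv
  obtain ⟨w2, hw2⟩ := (hu _ hc2).exists_right_inv
  set F : ℤ_[3] := (((k + 1 : ℕ) : ℤ_[3]) * (w1 * h) + ((3 * u + 3 : ℤ) : ℤ_[3]) * g) * (w1 * w2)
    with hF
  have hv := val_le ((k + 1 : ℕ) : ℤ_[3]) ((3 * u + 3 : ℤ) : ℤ_[3]) F fun d h1 h2 =>
    (dvd_add (h1.mul_right _) (h2.mul_right _)).mul_right _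
  have e : (F : ℚ_[3]) = ((S (3 * u + 4) (k + 1) / (k + 1 : ℕ) : ℚ) : ℚ_[3]) * ((3 : ℕ) : ℚ_[3]) := by
    have e1 : ((n' : ℤ) : ℚ_[3]) * (w1 : ℚ_[3]) = 1 := by exact_mod_cast congrArg ((↑) : ℤ_[3] → ℚ_[3]) hw1
    have e2 : (((3 * u + 4) ^ k : ℤ) : ℚ_[3]) * (w2 : ℚ_[3]) = 1 := by
      exact_mod_cast congrArg ((↑) : ℤ_[3] → ℚ_[3]) hw2
    have e3 : ((k + 1 : ℕ) : ℚ_[3]) = 3 ^ a * n' := by exact_mod_cast congrArg ((↑) : ℕ → ℚ_[3]) hk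
    have e4 := congrArg ((↑) : ℤ → ℚ_[3]) hg
    have e5 := congrArg ((↑) : ℤ → ℚ_[3]) hh
    have e6 : ((k + 1 : ℕ) : ℚ_[3]) ≠ 0 := by exact_mod_cast hn.ne'
    have e7 : (((3 * u + 4 : ℤ) : ℚ_[3])) ^ k ≠ 0 := pow_ne_zero _ (by exact_mod_cast hm0)
    rw [S, Nat.add_sub_cancel, tau_div _ hm0, hF]
    simp only [PadicInt.coe_mul, PadicInt.coe_add, PadicInt.coe_natCast, PadicInt.coe_intCast,
      Rat.cast_div, Rat.cast_pow, Rat.cast_intCast, Rat.cast_natCast]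
    rw [div_div, div_mul_eq_mul_div, eq_div_iff (mul_ne_zero e7 e6), e3]
    push_cast at e1 e2 e4 e5 ⊢
    set M : ℚ_[3] := (3 * u + 4) ^ k
    linear_combination (-3) * e4 - e5
      + (3 ^ a * (3 ^ a * h + (3 * u + 3) * g)) * e2
      + (3 ^ a * M * w2 * (3 ^ a * h * (n' * w1 + 1) + (3 * u + 3) * g)) * e1
  have e8 : Padic.addValuation ((3 : ℕ) : ℚ_[3]) = 1 := by
    rw [Padic.addValuation.apply (by norm_num), Padic.valuation_p]; rfl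
  rw [e, AddValuation.map_mul, e8] at hv
  simp only [PadicInt.coe_natCast, PadicInt.coe_intCast] at hv
  unfold nu
  convert hv using 3 <;> push_cast <;> ring

end Pool.Agent.Results.MP_7f2dba_nt.Valuation
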